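import Mathlib

set_option autoImplicit false

open Filter Topology

namespace Pool.Agent.Results.MP_dd6e79_al.NoOscillation

universe u v

/-- The growth function of a semigroup `S` with respect to a subset `X`: the number of elements
of `S` represented by nonempty words of length at most `n` over `X`. -/
noncomputable def growth {S : Type u} [Semigroup S] (X : Set S) (n : ℕ) : ℕ :=
  {s : S | ∃ w : FreeSemigroup X, w.length ≤ n ∧
    FreeSemigroup.lift (fun x : X => (x : S)) w = s}.ncard

/-- A semigroup is finitely presented if it is isomorphic to the quotient of the free semigroup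
on `k` letters by the congruence generated by a finite set of pairs of words. -/
def FinitelyPresented (S : Type u) [Semigroup S] : Prop :=
  ∃ (k : ℕ) (R : Set (FreeSemigroup (Fin k) × FreeSemigroup (Fin k))), R.Finite ∧
    Nonempty (S ≃* (conGen fun a b => (a, b) ∈ R).Quotient)

/-- `f` is dominated by `g` : there is `C ≥ 1` with `f n ≤ C * g (C * n)` for all `n`. -/
def Dominated (f g : ℕ → ℕ) : Prop := ∃ C : ℕ, 1 ≤ C ∧ ∀ n, f n ≤ C * g (C * n)

/-- Equivalence of growth functions. -/
def Equivalent (f g : ℕ → ℕ) : Prop := Dominated f g ∧ Dominated g f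

section Growth

variable {S : Type u} [Semigroup S]

/-- The ball of radius `n`. -/
def ball (X : Set S) (n : ℕ) : Set S :=
  {s : S | ∃ w : FreeSemigroup X, w.length ≤ n ∧
    FreeSemigroup.lift (fun x : X => (x : S)) w = s}

lemma growth_eq (X : Set S) (n : ℕ) : growth X n = (ball X n).ncard := rfl

lemma ball_finite {X : Set S} (hX : X.Finite) (n : ℕ) : (ball X n).Finite := by
  have : Finite X := hX
  have h1 : {w : FreeSemigroup X | w.length ≤ n}.Finite := by
    have h2 : ((Set.univ : Set X) ×ˢ {l : List X | l.length ≤ n}).Finite :=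
      Set.Finite.prod Set.finite_univ (List.finite_length_le X n)
    refine (h2.image (fun p : X × List X => (⟨p.1, p.2⟩ : FreeSemigroup X))).subset ?_
    rintro ⟨a, l⟩ hw
    refine ⟨(a, l), ⟨Set.mem_univ _, ?_⟩, rfl⟩
    have : l.length + 1 ≤ n := hw
    show l.length ≤ n
    omega
  refine (h1.image (fun w => FreeSemigroup.lift (fun x : X => (x : S)) w)).subset ?_
  rintro s ⟨w, hw, rfl⟩
  exact ⟨w, hw, rfl⟩

lemma ball_mono (X : Set S) {m n : ℕ} (h : m ≤ n) : ball X m ⊆ ball X n := by
  rintro s ⟨w, hw, rfl⟩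
  exact ⟨w, hw.trans h, rfl⟩

lemma growth_mono {X : Set S} (hX : X.Finite) {m n : ℕ} (h : m ≤ n) :
    growth X m ≤ growth X n :=
  Set.ncard_le_ncard (ball_mono X h) (ball_finite hX n)

lemma growth_zero (X : Set S) : growth X 0 = 0 := by
  have : ball X 0 = ∅ := by
    ext s
    simp only [ball, Set.mem_ofPred_eq, Set.mem_empty_iff_false, iff_false, not_exists, not_and]
    intro w hw
    exfalso
    have : w.tail.length + 1 ≤ 0 := hw
    omega
  rw [growth_eq, this, Set.ncard_empty]

lemma split_word {α : Type v} (w : FreeSemigroup α) (m : ℕ) (hm : 1 ≤ m) (h : m < w.length) :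
    ∃ x y : FreeSemigroup α, w = x * y ∧ x.length = m ∧ y.length = w.length - m := by
  obtain ⟨a, l⟩ := w
  have h' : m < l.length + 1 := h
  have hne : l.drop (m - 1) ≠ [] := by
    intro h0
    have := congrArg List.length h0
    simp at this
    omega
  obtain ⟨b, l', hb⟩ := List.exists_cons_of_ne_nil hne
  refine ⟨⟨a, l.take (m - 1)⟩, ⟨b, l'⟩, ?_, ?_, ?_⟩
  · rw [FreeSemigroup.mk_mul_mk, ← hb, List.take_append_drop]
  · simp only [FreeSemigroup.length, List.length_take]
    omega
  · have := congrArg List.length hb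
    simp only [List.length_drop, List.length_cons] at this
    simp only [FreeSemigroup.length]
    omega

lemma growth_submul {X : Set S} (hX : X.Finite) (m n : ℕ) :
    growth X (m + n) + 1 ≤ (growth X m + 1) * (growth X n + 1) := by
  rcases Nat.eq_zero_or_pos m with hm | hm
  · subst hm
    simp [growth_zero]
  have hsub : ball X (m + n) ⊆
      ball X m ∪ (fun p : S × S => p.1 * p.2) '' (ball X m ×ˢ ball X n) := by
    rintro s ⟨w, hw, rfl⟩
    rcases le_or_gt w.length m with h | h
    · exact Or.inl ⟨w, h, rfl⟩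
    · obtain ⟨x, y, hxy, hx, hy⟩ := split_word w m hm h
      right
      refine ⟨(FreeSemigroup.lift (fun x : X => (x : S)) x,
        FreeSemigroup.lift (fun x : X => (x : S)) y), ⟨⟨x, hx.le, rfl⟩, ⟨y, ?_, rfl⟩⟩, ?_⟩
      · rw [hy]; omega
      · simp only [hxy, map_mul]
  have hfin : ((fun p : S × S => p.1 * p.2) '' (ball X m ×ˢ ball X n)).Finite :=
    ((ball_finite hX m).prod (ball_finite hX n)).image _
  have h1 : growth X (m + n) ≤ growth X m + growth X m * growth X n := by
    calc growth X (m + n)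
        ≤ (ball X m ∪ (fun p : S × S => p.1 * p.2) '' (ball X m ×ˢ ball X n)).ncard :=
          Set.ncard_le_ncard hsub ((ball_finite hX m).union hfin)
      _ ≤ (ball X m).ncard + ((fun p : S × S => p.1 * p.2) '' (ball X m ×ˢ ball X n)).ncard :=
          Set.ncard_union_le _ _
      _ ≤ (ball X m).ncard + (ball X m ×ˢ ball X n).ncard := by
          gcongr
          exact Set.ncard_image_le ((ball_finite hX m).prod (ball_finite hX n))
      _ = growth X m + growth X m * growth X n := by
          rw [Set.ncard_prod]; rfl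
  nlinarith

lemma growth_image {T : Type v} [Semigroup T] (e : S ≃* T) (X : Set S) (n : ℕ) :
    growth (e '' X) n = growth X n := by
  have h : ball (e '' X) n = e '' ball X n := by
    ext t
    constructor
    · rintro ⟨w, hw, rfl⟩
      let f : (e '' X) → X := fun y => ⟨e.symm y, by
        obtain ⟨y, x, hx, rfl⟩ := y
        simpa using hx⟩
      refine ⟨FreeSemigroup.lift (fun x : X => (x : S)) (FreeSemigroup.map f w),
        ⟨FreeSemigroup.map f w, by simpa using hw, rfl⟩, ?_⟩
      have : ((e : S →ₙ* T).comp ((FreeSemigroup.lift (fun x : X => (x : S))).comp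
          (FreeSemigroup.map f))) = FreeSemigroup.lift (fun x : (e '' X) => (x : T)) := by
        apply FreeSemigroup.hom_ext
        funext y
        simp [f]
      exact DFunLike.congr_fun this w
    · rintro ⟨s, ⟨w, hw, rfl⟩, rfl⟩
      let f : X → (e '' X) := fun x => ⟨e x, x, x.2, rfl⟩
      refine ⟨FreeSemigroup.map f w, by simpa using hw, ?_⟩
      have : (FreeSemigroup.lift (fun x : (e '' X) => (x : T))).comp (FreeSemigroup.map f) =
          (e : S →ₙ* T).comp (FreeSemigroup.lift (fun x : X => (x : S))) := by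
        apply FreeSemigroup.hom_ext
        funext y
        simp [f]
      exact DFunLike.congr_fun this w
  rw [growth_eq, growth_eq, h, Set.ncard_image_of_injective _ e.injective]

end Growth

/-- The set of all growth functions of finitely presented semigroups. -/
def growthSet : Set (ℕ → ℕ) :=
  {f | ∃ (k : ℕ) (R : Finset (FreeSemigroup (Fin k) × FreeSemigroup (Fin k)))
    (X : Finset (conGen fun a b => (a, b) ∈ R).Quotient),
      f = growth (X : Set (conGen fun a b => (a, b) ∈ R).Quotient)}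

instance countableFreeSemigroup {α : Type v} [Countable α] : Countable (FreeSemigroup α) := by
  have : Function.Injective (fun w : FreeSemigroup α => (w.head, w.tail)) := by
    rintro ⟨a, l⟩ ⟨b, l'⟩ h
    simp at h
    simp [h.1, h.2]
  exact this.countable

lemma growthSet_countable : growthSet.Countable := by
  have : growthSet = Set.range (fun p : (Σ (k : ℕ)
      (R : Finset (FreeSemigroup (Fin k) × FreeSemigroup (Fin k))),
      Finset (conGen fun a b => (a, b) ∈ R).Quotient) =>
        growth (p.2.2 : Set (conGen fun a b => (a, b) ∈ p.2.1).Quotient)) := by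
    ext f
    constructor
    · rintro ⟨k, R, X, rfl⟩
      exact ⟨⟨k, R, X⟩, rfl⟩
    · rintro ⟨⟨k, R, X⟩, rfl⟩
      exact ⟨k, R, X, rfl⟩
  rw [this]
  have : ∀ (k : ℕ) (R : Finset (FreeSemigroup (Fin k) × FreeSemigroup (Fin k))),
      Countable (conGen fun a b => (a, b) ∈ R).Quotient := by
    intro k R
    exact Quotient.countable
  exact Set.countable_range _

lemma mem_growthSet {S : Type u} [Semigroup S] (hS : FinitelyPresented S) (X : Set S)
    (hX : X.Finite) : growth X ∈ growthSet := by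
  obtain ⟨k, R, hR, ⟨e⟩⟩ := hS
  lift R to Finset (FreeSemigroup (Fin k) × FreeSemigroup (Fin k)) using hR
  refine ⟨k, R, (hX.image e).toFinset, ?_⟩
  funext n
  rw [Set.Finite.coe_toFinset]
  exact (growth_image e X n).symm

/-- A function is subexponential if it is eventually below `c ^ n` for every `c > 1`. -/
def Subexp (f : ℕ → ℕ) : Prop := ∀ c : ℝ, 1 < c → ∀ᶠ n in atTop, (f n : ℝ) ≤ c ^ n

lemma eventually_pow_le {a c : ℝ} (ha : 1 ≤ a) (hac : a < c) (k : ℕ) :
    ∀ᶠ n : ℕ in atTop, (n : ℝ) ^ k + a ^ n ≤ c ^ n := by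
  have hc : 1 < c := lt_of_le_of_lt ha hac
  have hc0 : 0 < c := by linarith
  have h1 : Tendsto (fun n : ℕ => (n : ℝ) ^ k / c ^ n) atTop (𝓝 0) :=
    tendsto_pow_const_div_const_pow_of_one_lt k hc
  have h2 : Tendsto (fun n : ℕ => (a / c) ^ n) atTop (𝓝 0) := by
    apply tendsto_pow_atTop_nhds_zero_of_lt_one
    · positivity
    · rw [div_lt_one hc0]; exact hac
  have h3 := h1.add h2
  rw [add_zero] at h3
  filter_upwards [h3.eventually (gt_mem_nhds (show (0 : ℝ) < 1 by norm_num))] with n hn
  have hpos : 0 < c ^ n := by positivity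
  rw [div_pow, ← add_div, div_lt_one hpos] at hn
  exact hn.le

lemma dichotomy (F : ℕ → ℕ) (hF : ∀ m n, F (m + n) + 1 ≤ (F m + 1) * (F n + 1)) :
    Subexp F ∨ ∃ c : ℝ, 1 < c ∧ ∀ n, c ^ n ≤ (F n : ℝ) + 1 := by
  by_cases h : ∃ c : ℝ, 1 < c ∧ ∀ n, c ^ n ≤ (F n : ℝ) + 1
  · exact Or.inr h
  left
  intro c hc
  push Not at h
  obtain ⟨d, hd1, hdc⟩ : ∃ d : ℝ, 1 < d ∧ d < c := exists_between hc
  have hd0 : 0 < d := by linarith
  obtain ⟨N, hN⟩ := h d hd1
  have hN0 : 0 < N := by
    rcases Nat.eq_zero_or_pos N with h0 | h0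
    · subst h0
      simp at hN
      have : (0 : ℝ) ≤ F 0 := by positivity
      linarith
    · exact h0
  have key : ∀ q r : ℕ, F (q * N + r) + 1 ≤ (F N + 1) ^ q * (F r + 1) := by
    intro q r
    induction q with
    | zero => simp
    | succ q ih =>
      calc F ((q + 1) * N + r) + 1 = F (N + (q * N + r)) + 1 := by ring_nf
        _ ≤ (F N + 1) * (F (q * N + r) + 1) := hF _ _
        _ ≤ (F N + 1) * ((F N + 1) ^ q * (F r + 1)) := by gcongr
        _ = (F N + 1) ^ (q + 1) * (F r + 1) := by ring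
  let K : ℕ := (Finset.range N).sup (fun r => F r + 1)
  have hK : ∀ r < N, F r + 1 ≤ K := fun r hr =>
    Finset.le_sup (f := fun r => F r + 1) (Finset.mem_range.mpr hr)
  have hmain : ∀ n : ℕ, (F n : ℝ) + 1 ≤ K * d ^ n := by
    intro n
    have h1 := key (n / N) (n % N)
    have h2 : n / N * N + n % N = n := Nat.div_add_mod' n N
    rw [h2] at h1
    have h3 : F n + 1 ≤ (F N + 1) ^ (n / N) * K :=
      h1.trans (Nat.mul_le_mul_left _ (hK _ (Nat.mod_lt _ hN0)))
    have h4 : ((F n : ℝ) + 1) ≤ ((F N : ℝ) + 1) ^ (n / N) * K := by exact_mod_cast h3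
    have h5 : ((F N : ℝ) + 1) ^ (n / N) ≤ d ^ n := by
      calc ((F N : ℝ) + 1) ^ (n / N) ≤ (d ^ N) ^ (n / N) := by
            gcongr
        _ = d ^ (N * (n / N)) := by rw [← pow_mul]
        _ ≤ d ^ n := pow_le_pow_right₀ hd1.le (Nat.mul_div_le n N)
    calc ((F n : ℝ) + 1) ≤ ((F N : ℝ) + 1) ^ (n / N) * K := h4
      _ ≤ d ^ n * K := by gcongr
      _ = K * d ^ n := by ring
  have h6 : Tendsto (fun n : ℕ => (K : ℝ) * (d / c) ^ n) atTop (𝓝 0) := by
    have : Tendsto (fun n : ℕ => (d / c) ^ n) atTop (𝓝 0) := by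
      apply tendsto_pow_atTop_nhds_zero_of_lt_one
      · positivity
      · rw [div_lt_one (by linarith)]; exact hdc
    simpa using this.const_mul (K : ℝ)
  filter_upwards [h6.eventually (gt_mem_nhds (show (0 : ℝ) < 1 by norm_num))] with n hn
  have hpos : 0 < c ^ n := by positivity
  rw [div_pow, ← mul_div_assoc, div_lt_one hpos] at hn
  have := hmain n
  linarith

lemma exists_dominating (g : ℕ → ℕ → ℕ) (hmono : ∀ i, Monotone (g i))
    (hsub : ∀ i, Subexp (g i)) :
    ∃ f : ℕ → ℕ, StrictMono f ∧ Subexp f ∧ ∀ i, ∀ᶠ n in atTop, g i n ≤ f n := by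
  classical
  let c : ℕ → ℝ := fun j => 1 + 1 / ((j : ℝ) + 1)
  have hc1 : ∀ j, 1 < c j := by
    intro j
    have : 0 < 1 / ((j : ℝ) + 1) := by positivity
    simp only [c]
    linarith
  have hcanti : ∀ i j, i ≤ j → c j ≤ c i := by
    intro i j hij
    simp only [c]
    gcongr
  let P : ℕ → ℕ → Prop := fun n j => ∀ n' ≥ n, ∀ i ≤ j, (g i n' : ℝ) ≤ c j ^ n'
  have hPmono : ∀ m n j, m ≤ n → P m j → P n j := fun m n j hmn h n' hn' i hi =>
    h n' (hmn.trans hn') i hi
  have hPev : ∀ j, ∃ N, P N j := by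
    intro j
    have : ∀ᶠ n in atTop, ∀ i ∈ Finset.range (j + 1), (g i n : ℝ) ≤ c j ^ n := by
      rw [Filter.eventually_all_finset]
      intro i _
      exact hsub i (c j) (hc1 j)
    obtain ⟨N, hN⟩ := eventually_atTop.mp this
    exact ⟨N, fun n' hn' i hi => hN n' hn' i (Finset.mem_range.mpr (by omega))⟩
  let J : ℕ → ℕ := fun n => Nat.findGreatest (P n) n
  have hJmono : Monotone J := fun m n hmn =>
    Nat.findGreatest_mono (fun j hj => hPmono m n j hmn hj) hmn
  have hJlarge : ∀ j, ∀ᶠ n in atTop, j ≤ J n := by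
    intro j
    obtain ⟨N, hN⟩ := hPev j
    filter_upwards [eventually_ge_atTop (max N j)] with n hn
    exact Nat.le_findGreatest ((le_max_right _ _).trans hn)
      (hPmono N n j ((le_max_left _ _).trans hn) hN)
  have hJP : ∀ n, J n ≠ 0 → P n (J n) := fun n hn => Nat.findGreatest_of_ne_zero rfl hn
  let f : ℕ → ℕ := fun n => n + (Finset.range (J n + 1)).sup (fun i => g i n)
  refine ⟨f, ?_, ?_, ?_⟩
  · intro m n hmn
    have h1 : (Finset.range (J m + 1)).sup (fun i => g i m) ≤
        (Finset.range (J n + 1)).sup (fun i => g i n) := by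
      apply Finset.sup_le
      intro i hi
      have hi' : i ∈ Finset.range (J n + 1) := by
        have := hJmono hmn.le
        rw [Finset.mem_range] at hi ⊢
        omega
      exact (hmono i hmn.le).trans (Finset.le_sup (f := fun i => g i n) hi')
    simp only [f]
    omega
  · intro d hd
    obtain ⟨j, hj⟩ : ∃ j : ℕ, c (j + 1) < d := by
      obtain ⟨j, hj⟩ := exists_nat_one_div_lt (show (0 : ℝ) < d - 1 by linarith)
      refine ⟨j, ?_⟩
      have : c (j + 1) ≤ c j := hcanti _ _ (Nat.le_succ j)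
      simp only [c] at this ⊢
      linarith
    filter_upwards [hJlarge (j + 1), eventually_pow_le (hc1 (j + 1)).le hj 1] with n hn1 hn2
    have hP := hJP n (by omega)
    have h1 : ((Finset.range (J n + 1)).sup (fun i => g i n) : ℕ) ≤ ⌊c (j + 1) ^ n⌋₊ := by
      apply Finset.sup_le
      intro i hi
      apply Nat.le_floor
      have h2 := hP n le_rfl i (by rw [Finset.mem_range] at hi; omega)
      refine h2.trans ?_
      have h3 := hcanti _ _ hn1
      have h4 := hc1 (J n)
      exact pow_le_pow_left₀ (by linarith) h3 n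
    have h5 : (((Finset.range (J n + 1)).sup (fun i => g i n) : ℕ) : ℝ) ≤ c (j + 1) ^ n := by
      refine le_trans (Nat.cast_le.mpr h1) (Nat.floor_le ?_)
      have := hc1 (j + 1)
      positivity
    simp only [f, Nat.cast_add]
    rw [pow_one] at hn2
    linarith
  · intro i
    filter_upwards [hJlarge i] with n hn
    have h1 : g i n ≤ (Finset.range (J n + 1)).sup (fun i => g i n) :=
      Finset.le_sup (f := fun i => g i n) (Finset.mem_range.mpr (by omega))
    simp only [f]
    omega

lemma subexp_not_equivalent {f : ℕ → ℕ} (hf : Subexp f) :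
    ¬ Equivalent f (fun n => 2 ^ n) := by
  rintro ⟨-, C, hC, h⟩
  -- choose `c` with `c ^ C < 2`
  have hC0 : C ≠ 0 := by omega
  obtain ⟨c, hc1, hcC⟩ : ∃ c : ℝ, 1 < c ∧ c ^ C < 2 := by
    have hcont : ContinuousAt (fun c : ℝ => c ^ C) 1 := (continuous_pow C).continuousAt
    have h1 : ∀ᶠ c in 𝓝 (1 : ℝ), c ^ C < 2 := by
      apply hcont.eventually (gt_mem_nhds _)
      norm_num
    have h2 : ∀ᶠ c in 𝓝[>] (1 : ℝ), c ^ C < 2 := h1.filter_mono nhdsWithin_le_nhds
    obtain ⟨c, hc⟩ := (h2.and self_mem_nhdsWithin).exists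
    exact ⟨c, hc.2, hc.1⟩
  have hc0 : 0 < c := by linarith
  have h1 : ∀ᶠ n : ℕ in atTop, (f (C * n) : ℝ) ≤ c ^ (C * n) := by
    have : Tendsto (fun n : ℕ => C * n) atTop atTop :=
      tendsto_id.const_mul_atTop' (by omega)
    exact this.eventually (hf c hc1)
  have h2 : Tendsto (fun n : ℕ => (C : ℝ) * (c ^ C / 2) ^ n) atTop (𝓝 0) := by
    have : Tendsto (fun n : ℕ => (c ^ C / 2) ^ n) atTop (𝓝 0) := by
      apply tendsto_pow_atTop_nhds_zero_of_lt_one
      · positivity
      · rw [div_lt_one (by norm_num)]; exact hcC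
    simpa using this.const_mul (C : ℝ)
  obtain ⟨n, hn1, hn2⟩ :=
    (h1.and (h2.eventually (gt_mem_nhds (show (0 : ℝ) < 1 by norm_num)))).exists
  have h3 : (2 : ℝ) ^ n ≤ C * f (C * n) := by exact_mod_cast h n
  have h4 : (2 : ℝ) ^ n ≤ C * (c ^ C) ^ n := by
    rw [← pow_mul]
    refine h3.trans ?_
    gcongr
  have hpos : (0 : ℝ) < 2 ^ n := by positivity
  rw [div_pow, ← mul_div_assoc, div_lt_one hpos] at hn2
  linarith

lemma subexp_dominated {f : ℕ → ℕ} (hm : Monotone f) (hf : Subexp f) :
    Dominated f (fun n => 2 ^ n) := by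
  obtain ⟨N, hN⟩ := eventually_atTop.mp (hf 2 (by norm_num))
  refine ⟨f N + 1, by omega, fun n => ?_⟩
  have hpos : 1 ≤ 2 ^ ((f N + 1) * n) := Nat.one_le_two_pow
  rcases le_total n N with h | h
  · have h1 := hm h
    show f n ≤ (f N + 1) * 2 ^ ((f N + 1) * n)
    nlinarith
  · have h1 : f n ≤ 2 ^ n := by exact_mod_cast hN n h
    have h2 : 2 ^ n ≤ 2 ^ ((f N + 1) * n) :=
      Nat.pow_le_pow_right (by norm_num) (Nat.le_mul_of_pos_left n (by omega))
    show f n ≤ (f N + 1) * 2 ^ ((f N + 1) * n)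
    nlinarith

/-- Strong form: for every subexponential `f₁` there is an increasing `f₂`, dominated by but not
equivalent to `2 ^ n`, such that no finitely presented semigroup oscillates
between `f₁` and `f₂`. -/
theorem strong (f₁ : ℕ → ℕ) (h₁ : Subexp f₁) :
    ∃ f₂ : ℕ → ℕ, StrictMono f₂ ∧ Dominated f₂ (fun n => 2 ^ n) ∧
      ¬ Equivalent f₂ (fun n => 2 ^ n) ∧
      ∀ (S : Type u) [Semigroup S], FinitelyPresented S → ∀ X : Set S, X.Finite →
        (∀ᶠ n in atTop, f₁ n ≤ growth X n) ∨ (∀ᶠ n in atTop, growth X n ≤ f₂ n) := by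
  have hcount : (insert (fun _ => 0) {f ∈ growthSet | Monotone f ∧ Subexp f}).Countable :=
    (growthSet_countable.mono (fun f hf => hf.1)).insert _
  obtain ⟨g, hg⟩ := hcount.exists_eq_range ⟨_, Set.mem_insert _ _⟩
  have hgi : ∀ i, Monotone (g i) ∧ Subexp (g i) := by
    intro i
    have : g i ∈ insert (fun _ => 0) {f ∈ growthSet | Monotone f ∧ Subexp f} := by
      rw [hg]; exact ⟨i, rfl⟩
    rcases this with h | h
    · rw [h]
      refine ⟨monotone_const, fun c hc => Eventually.of_forall fun n => ?_⟩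
      have : (0 : ℝ) < c ^ n := by positivity
      simpa using this.le
    · exact h.2
  obtain ⟨f₂, hstrict, hsub, hdom⟩ := exists_dominating g (fun i => (hgi i).1) (fun i => (hgi i).2)
  refine ⟨f₂, hstrict, subexp_dominated hstrict.monotone hsub, subexp_not_equivalent hsub, ?_⟩
  intro S _ hS X hX
  rcases dichotomy (growth X) (growth_submul hX) with h | ⟨c, hc, h⟩
  · right
    have hmem : growth X ∈ Set.range g := by
      rw [← hg]
      exact Or.inr ⟨mem_growthSet hS X hX, fun m n hmn => growth_mono hX hmn, h⟩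
    obtain ⟨i, hi⟩ := hmem
    have := hdom i
    rw [hi] at this
    exact this
  · left
    obtain ⟨d, hd1, hdc⟩ := exists_between hc
    filter_upwards [h₁ d hd1, eventually_pow_le hd1.le hdc 0] with n hn1 hn2
    have h1 := h n
    have h2 : (f₁ n : ℝ) ≤ growth X n := by
      rw [pow_zero] at hn2
      linarith
    exact_mod_cast h2

/-- Q1 has a negative answer (the negated form holds). -/
theorem result :
    ∃ f₁ f₂ : ℕ → ℕ, StrictMono f₁ ∧ StrictMono f₂ ∧
      Dominated (fun n => n ^ 2) f₁ ∧ Dominated f₂ (fun n => 2 ^ n) ∧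
      ¬ Equivalent f₁ (fun n => n ^ 2) ∧ ¬ Equivalent f₂ (fun n => 2 ^ n) ∧
      ∀ (S : Type u) [Semigroup S], FinitelyPresented S →
        ∀ X : Set S, X.Finite → Subsemigroup.closure X = ⊤ →
          (∀ᶠ n in atTop, f₁ n ≤ growth X n) ∨ (∀ᶠ n in atTop, growth X n ≤ f₂ n) := by
  have hsub : Subexp (fun n => n ^ 3) := by
    intro c hc
    filter_upwards [eventually_pow_le le_rfl hc 3] with n hn
    rw [one_pow] at hn
    push_cast
    linarith
  obtain ⟨f₂, h1, h2, h3, h4⟩ := strong.{u} (fun n => n ^ 3) hsub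
  refine ⟨fun n => n ^ 3, f₂, Nat.pow_left_strictMono (by norm_num), h1, ?_, h2, ?_, h3, ?_⟩
  · refine ⟨1, le_rfl, fun n => ?_⟩
    rcases Nat.eq_zero_or_pos n with h | h
    · subst h; simp
    · show n ^ 2 ≤ 1 * (1 * n) ^ 3
      nlinarith [Nat.pow_le_pow_right h (show 2 ≤ 3 by norm_num)]
  · rintro ⟨⟨C, hC, h⟩, -⟩
    have h5 := h (C ^ 3 + 1)
    simp only at h5
    have h6 : C * (C * (C ^ 3 + 1)) ^ 2 = C ^ 3 * (C ^ 3 + 1) ^ 2 := by ring
    rw [h6, pow_succ (C ^ 3 + 1) 2, mul_comm] at h5
    have h7 : 0 < (C ^ 3 + 1) ^ 2 := by positivity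
    have h8 := Nat.le_of_mul_le_mul_right h5 h7
    omega
  · intro S _ hS X hX _
    exact h4 S hS X hX

end Pool.Agent.Results.MP_dd6e79_al.NoOscillation
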